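import Pool.Agent.W426.SM.Stm

/-! Task SM-ZP: location of the poles. -/

set_option autoImplicit false

namespace Pool.Agent.W22.SM.ZP

open Pool.Agent.W426.SM Filter Topology

theorem main : S_ZP := by
  intro p hp I F H T ν N hν hF hH hFI hHI s₀ hs₀
  have hp0 : (p : ℂ) ≠ 0 := by
    exact_mod_cast (by omega : p ≠ 0)
  have hp1 : (1 : ℝ) < p := by exact_mod_cast (by omega : 1 < p)
  set D : ℂ → ℂ := fun s => ∏ q, (1 - (p : ℂ) ^ (-((ν q : ℂ) + s * N q))) with hD
  have hDd : Differentiable ℂ D := by
    apply Differentiable.fun_finsetProd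
    intro q _
    apply Differentiable.const_sub
    apply Differentiable.const_cpow
    · fun_prop
    · exact Or.inl hp0
  have hDa : ∀ s, AnalyticAt ℂ D s := fun s => hDd.analyticAt s
  have hHa : ∀ s, AnalyticAt ℂ H s := fun s => hH.analyticAt s
  -- the difference
  have hG : MeromorphicOn (D * F - H) Set.univ := by
    intro s _
    exact (((hDa s).meromorphicAt).mul (hF s trivial)).sub (hHa s).meromorphicAt
  have h1 : meromorphicOrderAt (D * F - H) 1 = ⊤ := by
    rw [meromorphicOrderAt_eq_top_iff]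
    have hopen : IsOpen {s : ℂ | 0 < s.re} := isOpen_lt continuous_const Complex.continuous_re
    have hmem : {s : ℂ | 0 < s.re} ∈ 𝓝[≠] (1 : ℂ) :=
      nhdsWithin_le_nhds (hopen.mem_nhds (by simp))
    filter_upwards [hmem] with s hs
    simp only [Pi.sub_apply, Pi.mul_apply]
    rw [hHI s hs, hFI s hs]
    simp [hD]
  have h2 : meromorphicOrderAt (D * F - H) s₀ = ⊤ := by
    by_contra h
    exact hG.meromorphicOrderAt_ne_top_of_isPreconnected isPreconnected_univ
      (Set.mem_univ s₀) (Set.mem_univ 1) h h1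
  have h3 : D s₀ = 0 := by
    by_contra h
    have h4 : meromorphicOrderAt (D * F) s₀ = meromorphicOrderAt F s₀ :=
      meromorphicOrderAt_mul_of_ne_zero (hDa s₀) h
    have h5 : meromorphicOrderAt (D * F) s₀ = meromorphicOrderAt H s₀ := by
      apply meromorphicOrderAt_congr
      rw [meromorphicOrderAt_eq_top_iff] at h2
      filter_upwards [h2] with s hs
      exact sub_eq_zero.1 hs
    have h6 := (hHa s₀).meromorphicOrderAt_nonneg
    rw [← h5, h4] at h6
    exact absurd hs₀ (not_lt.2 h6)
  obtain ⟨q, -, hq⟩ := Finset.prod_eq_zero_iff.1 h3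
  have h7 : (p : ℂ) ^ (-((ν q : ℂ) + s₀ * N q)) = 1 := (sub_eq_zero.1 hq).symm
  have h8 : (p : ℝ) ^ (-((ν q : ℝ) + s₀.re * N q)) = 1 := by
    have := congrArg norm h7
    rw [Complex.norm_natCast_cpow_of_pos (by omega)] at this
    simpa using this
  have h9 : -((ν q : ℝ) + s₀.re * N q) = 0 := by
    have h10 := congrArg Real.log h8
    rw [Real.log_rpow (by positivity), Real.log_one] at h10
    rcases mul_eq_zero.1 h10 with h | h
    · exact h
    · exact absurd h (Real.log_pos hp1).ne'
  have hνq : (0 : ℝ) < ν q := by exact_mod_cast hν q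
  have hN : (N q : ℝ) ≠ 0 := by
    intro h
    rw [h] at h9
    linarith
  refine ⟨q, Nat.pos_of_ne_zero (by exact_mod_cast hN), ?_⟩
  field_simp
  linarith

end Pool.Agent.W22.SM.ZP
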