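import Pool.Agent.W426.SM.Stm

/-! Task SM-ZMA: scaling of the `p`-adic measure. -/

set_option autoImplicit false

namespace Pool.Agent.W22.SM.ZMA

open Pool.Agent.W426.SM Filter Topology MeasureTheory

section basic

variable {n : ℕ} {p : ℕ} [Fact p.Prime]

/-- scaling of the coordinates -/
noncomputable def phi (p : ℕ) [Fact p.Prime] (u : Fin n → ℕ) :
    (Fin n → PadicInt p) →+ (Fin n → PadicInt p) where
  toFun y := fun i => (p : PadicInt p) ^ (u i) * y i
  map_zero' := by
    ext i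
    simp
  map_add' x y := by
    funext i
    simp only [Pi.add_apply]
    ring

lemma phi_apply (u : Fin n → ℕ) (y : Fin n → PadicInt p) (i : Fin n) :
    phi p u y i = (p : PadicInt p) ^ (u i) * y i := rfl

lemma p_ne : (p : PadicInt p) ≠ 0 := by
  exact_mod_cast (Fact.out : p.Prime).ne_zero

lemma phi_inj (u : Fin n → ℕ) : Function.Injective (phi p u) := by
  intro x y h
  funext i
  have := congrFun h i
  rw [phi_apply, phi_apply] at this
  exact mul_left_cancel₀ (pow_ne_zero _ p_ne) this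

lemma phi_cont (u : Fin n → ℕ) : Continuous (phi p u) :=
  continuous_pi fun i => continuous_const.mul (continuous_apply i)

lemma phi_emb (u : Fin n → ℕ) : IsClosedEmbedding (phi p u) :=
  (phi_cont u).isClosedEmbedding (phi_inj u)

/-- reduction of the coordinates -/
noncomputable def red (p : ℕ) [Fact p.Prime] (u : Fin n → ℕ) :
    (Fin n → PadicInt p) →+ (∀ i, ZMod (p ^ u i)) where
  toFun x i := PadicInt.toZModPow (u i) (x i)
  map_zero' := by
    funext i
    simp
  map_add' x y := by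
    funext i
    simp

lemma red_surj (u : Fin n → ℕ) : Function.Surjective (red p u) := by
  intro z
  choose x hx using fun i => ZMod.ringHom_surjective (PadicInt.toZModPow (p := p) (u i)) (z i)
  exact ⟨x, funext hx⟩

lemma red_ker (u : Fin n → ℕ) : (red p u).ker = (phi p u).range := by
  ext x
  rw [AddMonoidHom.mem_ker, AddMonoidHom.mem_range]
  constructor
  · intro h
    have h1 : ∀ i, ∃ y : PadicInt p, x i = (p : PadicInt p) ^ u i * y := by
      intro i
      have h2 : PadicInt.toZModPow (u i) (x i) = 0 := congrFun h i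
      rw [← RingHom.mem_ker, PadicInt.ker_toZModPow, Ideal.mem_span_singleton] at h2
      exact h2
    choose y hy using h1
    exact ⟨y, funext fun i => (hy i).symm⟩
  · rintro ⟨y, rfl⟩
    funext i
    change PadicInt.toZModPow (u i) (phi p u y i) = 0
    rw [← RingHom.mem_ker, PadicInt.ker_toZModPow, Ideal.mem_span_singleton, phi_apply]
    exact dvd_mul_right _ _

lemma index_range (u : Fin n → ℕ) : (phi p u).range.index = p ^ (∑ i, u i) := by
  rw [← red_ker, AddSubgroup.index_ker, AddMonoidHom.range_eq_top.2 (red_surj u)]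
  rw [Nat.card_congr AddSubgroup.topEquiv.toEquiv, Nat.card_pi]
  simp [Finset.prod_pow_eq_pow_sum]

lemma phi_norm (u : Fin n → ℕ) (y : Fin n → PadicInt p) (i : Fin n) :
    ‖phi p u y i‖ = (p : ℝ) ^ (-(u i : ℤ)) * ‖y i‖ := by
  rw [phi_apply, norm_mul, PadicInt.norm_p_pow]

lemma mem_range_of_norm (u : Fin n → ℕ) (x : Fin n → PadicInt p)
    (h : ∀ i, ‖x i‖ = (p : ℝ) ^ (-(u i : ℤ))) : ∃ y, phi p u y = x := by
  have h1 : ∀ i, ∃ y : PadicInt p, x i = (p : PadicInt p) ^ u i * y := by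
    intro i
    have h2 := (PadicInt.norm_le_pow_iff_mem_span_pow (x i) (u i)).1 (h i).le
    rw [Ideal.mem_span_singleton] at h2
    exact h2
  choose y hy using h1
  exact ⟨y, funext fun i => (hy i).symm⟩

/-- the measure of the image -/
lemma measure_image [MeasurableSpace (Fin n → PadicInt p)] [BorelSpace (Fin n → PadicInt p)]
    (u : Fin n → ℕ) (S : Set (Fin n → PadicInt p)) :
    ((Measure.addHaar : Measure (Fin n → PadicInt p)) (phi p u '' S)).toReal =
      (p : ℝ) ^ (-((∑ i, u i : ℕ) : ℤ)) *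
        ((Measure.addHaar : Measure (Fin n → PadicInt p)) S).toReal := by
  set μ := (Measure.addHaar : Measure (Fin n → PadicInt p)) with hμ
  have hme : MeasurableEmbedding (phi p u) := (phi_emb u).measurableEmbedding
  have hinv : (μ.comap (phi p u)).IsAddLeftInvariant :=
    Measure.IsAddLeftInvariant.comap μ hme
  have hfin : IsFiniteMeasureOnCompacts (μ.comap (phi p u)) :=
    IsFiniteMeasureOnCompacts.comap' μ (phi_cont u) hme
  have hsm := Measure.isAddInvariant_eq_smul_of_compactSpace (μ.comap (phi p u)) μ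
  set c := (μ.comap (phi p u)).addHaarScalarFactor μ with hc
  have h1 : ∀ T : Set (Fin n → PadicInt p), (μ (phi p u '' T)).toReal = c * (μ T).toReal := by
    intro T
    rw [← hme.comap_apply, hsm]
    simp
  have hfi : (phi p u).range.FiniteIndex := by
    refine ⟨?_⟩
    rw [index_range]
    exact pow_ne_zero _ (Fact.out : p.Prime).ne_zero
  have h2 := AddSubgroup.index_mul_measure (phi p u).range (by
    rw [AddMonoidHom.coe_range]
    exact (phi_emb u).isClosed_range.measurableSet) μ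
  rw [index_range, AddMonoidHom.coe_range, ← Set.image_univ] at h2
  have h3 := congrArg ENNReal.toReal h2
  rw [ENNReal.toReal_mul, h1] at h3
  have h4 : 0 < (μ Set.univ).toReal := by
    apply ENNReal.toReal_pos
    · exact (Measure.measure_univ_ne_zero.2 (NeZero.ne μ))
    · exact measure_ne_top _ _
  have h5 : (c : ℝ) = (p : ℝ) ^ (-((∑ i, u i : ℕ) : ℤ)) := by
    have h6 : ((p : ℝ) ^ (∑ i, u i)) * c = 1 := by
      have h7 : (((p ^ ∑ i, u i : ℕ) : ENNReal)).toReal = (p : ℝ) ^ (∑ i, u i) := by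
        simp
      rw [h7] at h3
      have h8 : (((p : ℝ) ^ (∑ i, u i)) * c - 1) * (μ Set.univ).toReal = 0 := by linarith
      rcases mul_eq_zero.1 h8 with h | h
      · linarith
      · exact absurd h h4.ne'
    rw [zpow_neg, zpow_natCast]
    exact eq_inv_of_mul_eq_one_right h6
  rw [h1, h5]

lemma gord_le {k : ℕ} (m : Fin k → Fin n → ℕ) (u : Fin n → ℕ) (j : Fin k) :
    gord m u ≤ ∑ i, u i * m j i := ciInf_le' _ j

lemma gord_mem {k : ℕ} (hk : 0 < k) (m : Fin k → Fin n → ℕ) (u : Fin n → ℕ) :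
    ∃ j : Fin k, ∑ i, u i * m j i = gord m u := by
  have : Nonempty (Fin k) := ⟨⟨0, hk⟩⟩
  exact Nat.sInf_mem (Set.range_nonempty fun j : Fin k => ∑ i, u i * m j i)

lemma gp_phi {k : ℕ} (m : Fin k → Fin n → ℕ) (c : Fin k → ℚ) (u : Fin n → ℕ)
    (y : Fin n → PadicInt p) :
    gp p m c 0 (phi p u y) = (p : Padic p) ^ gord m u *
      gp p m c (fun j => ∑ i, u i * m j i - gord m u) y := by
  rw [gp, gp, Finset.mul_sum]
  apply Finset.sum_congr rfl
  intro j _
  have h1 : ∀ i, ((phi p u y i : PadicInt p) : Padic p) ^ m j i =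
      (p : Padic p) ^ (u i * m j i) * ((y i : PadicInt p) : Padic p) ^ m j i := by
    intro i
    rw [phi_apply, PadicInt.coe_mul, mul_pow, PadicInt.coe_pow, ← pow_mul]
    simp
  simp only [h1, Finset.prod_mul_distrib, Finset.prod_pow_eq_pow_sum, Pi.zero_apply, pow_zero,
    mul_one]
  have h2 : (p : Padic p) ^ (∑ i, u i * m j i) =
      (p : Padic p) ^ gord m u * (p : Padic p) ^ (∑ i, u i * m j i - gord m u) := by
    rw [← pow_add, Nat.add_sub_cancel' (gord_le m u j)]
  rw [h2]
  ring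

lemma set_eq {k : ℕ} (m : Fin k → Fin n → ℕ) (c : Fin k → ℚ) (u : Fin n → ℕ) (r : ℝ) :
    {x : Fin n → PadicInt p | (∀ i, ‖x i‖ = (p : ℝ) ^ (-(u i : ℤ))) ∧
      ‖gp p m c 0 x‖ = (p : ℝ) ^ (-(gord m u : ℤ)) * r} =
    phi p u '' {y | (∀ i, ‖y i‖ = 1) ∧
      ‖gp p m c (fun j => ∑ i, u i * m j i - gord m u) y‖ = r} := by
  have hp : (0 : ℝ) < p := by exact_mod_cast (Fact.out : p.Prime).pos
  have hn : ∀ y : Fin n → PadicInt p, (‖gp p m c 0 (phi p u y)‖ = (p : ℝ) ^ (-(gord m u : ℤ)) * r ↔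
      ‖gp p m c (fun j => ∑ i, u i * m j i - gord m u) y‖ = r) := by
    intro y
    rw [gp_phi, norm_mul, Padic.norm_p_pow]
    exact mul_right_inj' (zpow_pos hp _).ne'
  have hn2 : ∀ (y : Fin n → PadicInt p) (i : Fin n),
      (‖phi p u y i‖ = (p : ℝ) ^ (-(u i : ℤ)) ↔ ‖y i‖ = 1) := by
    intro y i
    rw [phi_norm]
    exact mul_eq_left₀ (zpow_pos hp _).ne'
  ext x
  constructor
  · rintro ⟨h1, h2⟩
    obtain ⟨y, rfl⟩ := mem_range_of_norm u x h1
    exact ⟨y, ⟨fun i => (hn2 y i).1 (h1 i), (hn y).1 h2⟩, rfl⟩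
  · rintro ⟨y, ⟨h1, h2⟩, rfl⟩
    exact ⟨fun i => (hn2 y i).2 (h1 i), (hn y).2 h2⟩

end basic

theorem main (h : S_ZMU) : S_ZMA := by
  intro n k m c hm hc hk
  obtain ⟨S, hS⟩ := h m c hm hc
  refine ⟨S, ?_⟩
  intro p _ hp _ _
  obtain ⟨C₀, C₁, hC⟩ := hS p hp
  have hp0 : (0 : ℝ) < p := by exact_mod_cast (Fact.out : p.Prime).pos
  refine ⟨C₀, C₁, fun u => ?_⟩
  set δ : Fin k → ℕ := fun j => ∑ i, u i * m j i - gord m u with hδ
  have hδ0 : ∀ j, δ j = 0 ↔ ∑ i, u i * m j i = gord m u := by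
    intro j
    have := gord_le m u j
    simp only [hδ]
    omega
  obtain ⟨j0, hj0⟩ := gord_mem hk m u
  obtain ⟨h1, h2⟩ := hC δ ⟨j0, (hδ0 j0).2 hj0⟩
  have hfil : (Finset.univ.filter fun j => δ j = 0) =
      (Finset.univ.filter fun j => ∑ i, u i * m j i = gord m u) := by
    apply Finset.filter_congr
    intro j _
    exact hδ0 j
  rw [hfil] at h1 h2
  constructor
  · have h3 := set_eq (p := p) m c u 1
    rw [mul_one] at h3
    rw [h3, measure_image, h1]
    ring
  · intro l
    have h3 := set_eq (p := p) m c u ((p : ℝ) ^ (-((l : ℤ) + 1)))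
    rw [← zpow_add₀ hp0.ne', ← neg_add] at h3
    rw [h3, measure_image, h2 l]
    ring

end Pool.Agent.W22.SM.ZMA
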